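import Mathlib

set_option autoImplicit false

open scoped Pointwise commutatorElement

namespace Pool.Agent.Results.MP_e629f7_al.UnitRankBound

/-- The number of points of the `G`-set `X` fixed by the subgroup `H`. -/
noncomputable def mark {G : Type} [Group G] (X : Type) [MulAction G X] (H : Subgroup G) : ℤ :=
  (Nat.card (MulAction.fixedPoints H X) : ℤ)

section marks

variable {G : Type} [Group G]

theorem mark_sum (X Y : Type) [Finite X] [Finite Y] [MulAction G X] [MulAction G Y]
    (H : Subgroup G) : mark (X ⊕ Y) H = mark X H + mark Y H := by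
  unfold mark
  have e : MulAction.fixedPoints H (X ⊕ Y) ≃
      MulAction.fixedPoints H X ⊕ MulAction.fixedPoints H Y :=
    { toFun := fun z => match z with
        | ⟨Sum.inl x, hx⟩ => Sum.inl ⟨x, fun h => Sum.inl_injective (hx h)⟩
        | ⟨Sum.inr y, hy⟩ => Sum.inr ⟨y, fun h => Sum.inr_injective (hy h)⟩
      invFun := fun z => match z with
        | Sum.inl x => ⟨Sum.inl x.1, fun h => congrArg Sum.inl (x.2 h)⟩
        | Sum.inr y => ⟨Sum.inr y.1, fun h => congrArg Sum.inr (y.2 h)⟩
      left_inv := by rintro ⟨x | y, h⟩ <;> rfl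
      right_inv := by rintro (x | y) <;> rfl }
  rw [Nat.card_congr e, Nat.card_sum]
  push_cast
  rfl

theorem mark_prod (X Y : Type) [Finite X] [Finite Y] [MulAction G X] [MulAction G Y]
    (H : Subgroup G) : mark (X × Y) H = mark X H * mark Y H := by
  unfold mark
  have e : MulAction.fixedPoints H (X × Y) ≃
      MulAction.fixedPoints H X × MulAction.fixedPoints H Y :=
    { toFun := fun z => (⟨z.1.1, fun h => congrArg Prod.fst (z.2 h)⟩,
        ⟨z.1.2, fun h => congrArg Prod.snd (z.2 h)⟩)
      invFun := fun z => ⟨(z.1.1, z.2.1), fun h => Prod.ext (z.1.2 h) (z.2.2 h)⟩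
      left_inv := by rintro ⟨⟨x, y⟩, h⟩; rfl
      right_inv := by rintro ⟨x, y⟩; rfl }
  rw [Nat.card_congr e, Nat.card_prod]
  push_cast
  rfl

theorem mark_unit (H : Subgroup G) : mark PUnit H = 1 := by
  unfold mark
  have : MulAction.fixedPoints H PUnit = Set.univ := by
    ext x; simp [MulAction.mem_fixedPoints]
  rw [this]
  simp

end marks

/-- The Burnside ring of `G`, realised inside the ghost ring of all integer-valued functions on
the set of subgroups: the functions `H ↦ |X^H| - |Y^H|` for finite `G`-sets `X`, `Y`. -/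
def burnsideRing (G : Type) [Group G] : Subring (Subgroup G → ℤ) where
  carrier := {x | ∃ (X Y : Type) (_ : Finite X) (_ : Finite Y) (_ : MulAction G X)
    (_ : MulAction G Y), ∀ H : Subgroup G, x H = mark X H - mark Y H}
  mul_mem' := by
    rintro a b ⟨X₁, Y₁, _, _, _, _, h₁⟩ ⟨X₂, Y₂, _, _, _, _, h₂⟩
    refine ⟨(X₁ × X₂) ⊕ (Y₁ × Y₂), (X₁ × Y₂) ⊕ (Y₁ × X₂), inferInstance, inferInstance,
      inferInstance, inferInstance, fun H => ?_⟩
    rw [Pi.mul_apply, h₁, h₂, mark_sum, mark_sum, mark_prod, mark_prod, mark_prod, mark_prod]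
    ring
  one_mem' := ⟨PUnit ⊕ PUnit, PUnit, inferInstance, inferInstance, inferInstance, inferInstance,
    fun H => by rw [mark_sum, mark_unit, Pi.one_apply]; norm_num⟩
  add_mem' := by
    rintro a b ⟨X₁, Y₁, _, _, _, _, h₁⟩ ⟨X₂, Y₂, _, _, _, _, h₂⟩
    refine ⟨X₁ ⊕ X₂, Y₁ ⊕ Y₂, inferInstance, inferInstance,
      inferInstance, inferInstance, fun H => ?_⟩
    rw [Pi.add_apply, h₁, h₂, mark_sum, mark_sum]
    ring
  zero_mem' := ⟨PUnit, PUnit, inferInstance, inferInstance, inferInstance, inferInstance,
    fun H => by rw [Pi.zero_apply, sub_self]⟩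
  neg_mem' := by
    rintro a ⟨X₁, Y₁, _, _, _, _, h₁⟩
    exact ⟨Y₁, X₁, inferInstance, inferInstance, inferInstance, inferInstance,
      fun H => by rw [Pi.neg_apply, h₁]; ring⟩

/-- The number of `G`-conjugacy classes meeting a set `S` (of subgroups, or of pairs of
subgroups, of `G`). -/
noncomputable def numClasses (G : Type) [Group G] {α : Type} [MulAction (ConjAct G) α]
    (S : Set α) : ℕ :=
  (Quotient.mk (MulAction.orbitRel (ConjAct G) α) '' S).ncard

/-- The pairs `(H, K)` with `K` of index two in `H`. -/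
def indexTwoPairs (G : Type) [Group G] : Set (Subgroup G × Subgroup G) :=
  {p | p.2 ≤ p.1 ∧ p.2.relIndex p.1 = 2}

/-- The pairs `(H, K)` with `|H : K| = 2` such that `4` divides `|N_G(K) : K|`, or such that `H`
has a normal subgroup of odd prime index. -/
def redundantPairs (G : Type) [Group G] : Set (Subgroup G × Subgroup G) :=
  {p | p ∈ indexTwoPairs G ∧ (4 ∣ p.2.relIndex (Subgroup.normalizer (p.2 : Set G)) ∨
    ∃ N : Subgroup G, N ≤ p.1 ∧ (N.subgroupOf p.1).Normal ∧ (N.relIndex p.1).Prime ∧
      Odd (N.relIndex p.1))}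


section congruence

variable {G : Type} [Group G]

theorem mem_fixed_iff {X : Type} [MulAction G X] (H : Subgroup G) (x : X) :
    x ∈ MulAction.fixedPoints H X ↔ H ≤ MulAction.stabilizer G x := by
  constructor
  · intro h g hg
    exact h ⟨g, hg⟩
  · intro h g
    exact h g.2

theorem mark_conj (X : Type) [MulAction G X] (g : ConjAct G) (H : Subgroup G) :
    mark X (g • H) = mark X H := by
  unfold mark
  congr 1
  apply Nat.card_congr
  refine (Equiv.subtypeEquiv (MulAction.toPerm (ConjAct.ofConjAct g)) fun x => ?_).symm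
  rw [mem_fixed_iff, mem_fixed_iff, MulAction.toPerm_apply, MulAction.stabilizer_smul_eq_stabilizer_map_conj]
  constructor
  · intro h k hk
    rw [Subgroup.mem_smul_pointwise_iff_exists] at hk
    obtain ⟨s, hs, rfl⟩ := hk
    exact ⟨s, h hs, by simp [ConjAct.smul_def]⟩
  · intro h k hk
    have : g • k ∈ g • H := Subgroup.smul_mem_pointwise_smul _ _ _ hk
    obtain ⟨s, hs, hs'⟩ := h this
    have hsk : s = k := by
      simpa [ConjAct.smul_def] using hs'
    rw [← hsk]
    exact hs

/-- The action of `M ≤ N_G(K)` on the `K`-fixed points. -/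
def fixAct (X : Type) [MulAction G X] (K M : Subgroup G)
    (hM : M ≤ Subgroup.normalizer (K : Set G)) : MulAction ↥M ↥(MulAction.fixedPoints K X) where
  smul m x := ⟨(m : G) • (x : X), by
    intro k
    have hk : (m : G)⁻¹ * k * m ∈ K := by
      have := (Subgroup.mem_normalizer_iff''.mp (hM m.2) (k : G)).mp k.2
      exact this
    have h1 : ((m : G)⁻¹ * k * m) • (x : X) = x := x.2 ⟨_, hk⟩
    change (k : G) • (m : G) • (x : X) = (m : G) • (x : X)
    rw [← smul_smul, ← smul_smul] at h1
    calc (k : G) • (m : G) • (x : X)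
        = (m : G) • (m : G)⁻¹ • (k : G) • (m : G) • (x : X) := by rw [smul_inv_smul]
      _ = (m : G) • (x : X) := by rw [h1]⟩
  one_smul x := Subtype.ext (one_smul G (x : X))
  mul_smul a b x := Subtype.ext (mul_smul (a : G) (b : G) (x : X))

theorem burnside_orbit (X : Type) [Finite X] [MulAction G X] (K M : Subgroup G) [Finite ↥M]
    [Fintype ↥M] (hM : M ≤ Subgroup.normalizer (K : Set G)) :
    ∃ n : ℤ, ∑ m : ↥M, mark X (K ⊔ Subgroup.zpowers (m : G)) = n * (Fintype.card ↥M : ℤ) := by
  classical
  letI := fixAct X K M hM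
  have : Fintype X := Fintype.ofFinite X
  have : Fintype ↥(MulAction.fixedPoints K X) := Fintype.ofFinite _
  have : ∀ g : ↥M, Fintype (MulAction.fixedBy ↥(MulAction.fixedPoints K X) g) :=
    fun g => Fintype.ofFinite _
  have : Fintype (Quotient (MulAction.orbitRel ↥M ↥(MulAction.fixedPoints K X))) :=
    Fintype.ofFinite _
  have h := MulAction.sum_card_fixedBy_eq_card_orbits_mul_card_group ↥M
    ↥(MulAction.fixedPoints K X)
  refine ⟨Fintype.card (Quotient (MulAction.orbitRel ↥M ↥(MulAction.fixedPoints K X))), ?_⟩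
  have h' := congrArg (Nat.cast : ℕ → ℤ) h
  push_cast at h'
  rw [← h']
  apply Finset.sum_congr rfl
  intro m _
  unfold mark
  rw [← Nat.card_eq_fintype_card]
  congr 1
  apply Nat.card_congr
  refine
    { toFun := fun x => ⟨⟨x.1, fun k => x.2 ⟨k, (le_sup_left : K ≤ _) k.2⟩⟩, Subtype.ext
        (x.2 ⟨m, (le_sup_right : Subgroup.zpowers (m : G) ≤ _) (Subgroup.mem_zpowers _)⟩)⟩
      invFun := fun x => ⟨x.1.1, (mem_fixed_iff _ _).mpr (sup_le
        ((mem_fixed_iff _ _).mp x.1.2) (by
          rw [Subgroup.zpowers_le]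
          exact congrArg Subtype.val x.2))⟩
      left_inv := fun x => rfl
      right_inv := fun x => rfl }

theorem burnside_dvd {x : Subgroup G → ℤ} (hx : x ∈ burnsideRing G) (K M : Subgroup G)
    [Finite ↥M] [Fintype ↥M] (hM : M ≤ Subgroup.normalizer (K : Set G)) :
    (Fintype.card ↥M : ℤ) ∣ ∑ m : ↥M, x (K ⊔ Subgroup.zpowers (m : G)) := by
  obtain ⟨X, Y, _, _, _, _, h⟩ := hx
  obtain ⟨n₁, h₁⟩ := burnside_orbit X K M hM
  obtain ⟨n₂, h₂⟩ := burnside_orbit Y K M hM
  refine ⟨n₁ - n₂, ?_⟩
  simp only [h, Finset.sum_sub_distrib, h₁, h₂]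
  ring

theorem conj_inv {x : Subgroup G → ℤ} (hx : x ∈ burnsideRing G) (g : ConjAct G)
    (H : Subgroup G) : x (g • H) = x H := by
  obtain ⟨X, Y, _, _, _, _, h⟩ := hx
  rw [h, h, mark_conj, mark_conj]

end congruence

section steps

variable {G : Type} [Group G]

theorem exists_prime_index (H : Type) [Group H] [Finite H] (h : commutator H ≠ ⊤) :
    ∃ B : Subgroup H, B.Normal ∧ B.index.Prime := by
  obtain hB | ⟨B, hB, hle⟩ := eq_top_or_exists_le_coatom (commutator H)
  · exact absurd hB h
  have hn : B.Normal := by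
    constructor
    intro b hb g
    have h1 : ⁅g, b⁆ ∈ B := hle (Subgroup.commutator_mem_commutator (Subgroup.mem_top _)
      (Subgroup.mem_top _))
    have h2 := B.mul_mem h1 hb
    simpa [commutatorElement_def] using h2
  refine ⟨B, hn, ?_⟩
  have hcomm : ∀ a b : H ⧸ B, a * b = b * a := by
    intro a b
    obtain ⟨x, rfl⟩ := QuotientGroup.mk_surjective a
    obtain ⟨y, rfl⟩ := QuotientGroup.mk_surjective b
    rw [← QuotientGroup.mk_mul, ← QuotientGroup.mk_mul]
    apply QuotientGroup.eq.mpr
    have h1 : ⁅y⁻¹, x⁻¹⁆ ∈ B := hle (Subgroup.commutator_mem_commutator (Subgroup.mem_top _)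
      (Subgroup.mem_top _))
    have h2 : (x * y)⁻¹ * (y * x) = ⁅y⁻¹, x⁻¹⁆ := by
      rw [commutatorElement_def]; group
    rw [h2]
    exact h1
  letI : CommGroup (H ⧸ B) := { (inferInstance : Group (H ⧸ B)) with mul_comm := hcomm }
  have hs : IsSimpleGroup (H ⧸ B) := by
    refine { exists_pair_ne := ?_, eq_bot_or_eq_top_of_normal := ?_ }
    · by_contra hcon
      push Not at hcon
      apply hB.1
      rw [eq_top_iff]
      intro x _
      exact (QuotientGroup.eq_one_iff x).mp (hcon _ _)
    · intro N _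
      have hBN : B ≤ N.comap (QuotientGroup.mk' B) := by
        intro b hb
        rw [Subgroup.mem_comap]
        have : QuotientGroup.mk' B b = 1 := (QuotientGroup.eq_one_iff b).mpr hb
        rw [this]
        exact N.one_mem
      rcases hBN.eq_or_lt with heq | hlt
      · left
        rw [Subgroup.eq_bot_iff_forall]
        intro x hx
        obtain ⟨y, rfl⟩ := QuotientGroup.mk_surjective x
        apply (QuotientGroup.eq_one_iff y).mpr
        rw [heq]
        exact hx
      · right
        have := hB.2 _ hlt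
        rw [eq_top_iff]
        intro x _
        obtain ⟨y, rfl⟩ := QuotientGroup.mk_surjective x
        have hy : y ∈ N.comap (QuotientGroup.mk' B) := by rw [this]; exact Subgroup.mem_top _
        exact hy
  exact IsSimpleGroup.prime_card (α := H ⧸ B)

theorem exists_prime_step (H : Subgroup G) [Finite ↥H] (h : ⁅H, H⁆ ≠ H) :
    ∃ K : Subgroup G, K ≤ H ∧ (K.subgroupOf H).Normal ∧ (K.relIndex H).Prime := by
  have h' : commutator ↥H ≠ ⊤ := by
    intro h1
    apply h
    have := (Group.isPerfect_def (G := ↥H)).mpr h1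
    exact Subgroup.isPerfect_iff.mp this
  obtain ⟨B, hn, hp⟩ := exists_prime_index ↥H h'
  refine ⟨B.map H.subtype, Subgroup.map_subtype_le B, ?_, ?_⟩
  · rw [Subgroup.subgroupOf, Subgroup.comap_map_eq_self_of_injective H.subtype_injective]
    exact hn
  · rw [Subgroup.relIndex, Subgroup.subgroupOf,
      Subgroup.comap_map_eq_self_of_injective H.subtype_injective]
    exact hp

/-- The general congruence. -/
theorem congr_gen [Finite G] {x : Subgroup G → ℤ} (hx : x ∈ burnsideRing G) {K M : Subgroup G}
    (hKM : K ≤ M) (hM : M ≤ Subgroup.normalizer (K : Set G)) (c : ℤ)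
    (h : ∀ m ∈ M, m ∉ K → x (K ⊔ Subgroup.zpowers m) = c) :
    ((K.relIndex M : ℕ) : ℤ) ∣ x K + ((K.relIndex M : ℤ) - 1) * c := by
  classical
  have : Fintype ↥M := Fintype.ofFinite _
  have h1 := burnside_dvd hx K M hM
  have h2 : ∀ m : ↥M, x (K ⊔ Subgroup.zpowers (m : G)) = if (m : G) ∈ K then x K else c := by
    intro m
    split_ifs with hm
    · rw [sup_of_le_left]
      rwa [Subgroup.zpowers_le]
    · exact h m m.2 hm
  simp only [h2] at h1
  rw [Finset.sum_ite, Finset.sum_const, Finset.sum_const] at h1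
  have hcardK : (Finset.univ.filter fun m : ↥M => (m : G) ∈ K).card = Nat.card ↥K := by
    rw [← Fintype.card_subtype, ← Nat.card_eq_fintype_card]
    exact Nat.card_congr
      { toFun := fun m => ⟨m.1.1, m.2⟩
        invFun := fun k => ⟨⟨k.1, hKM k.2⟩, k.2⟩
        left_inv := fun _ => rfl
        right_inv := fun _ => rfl }
  have hcardM : Fintype.card ↥M = Nat.card ↥K * K.relIndex M := by
    rw [← Nat.card_eq_fintype_card, Subgroup.relIndex, ← Subgroup.card_mul_index (K.subgroupOf M)]
    congr 1
    exact Nat.card_congr (Subgroup.subgroupOfEquivOfLe hKM).toEquiv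
  have hcard' : (Finset.univ.filter fun m : ↥M => ¬ (m : G) ∈ K).card =
      Fintype.card ↥M - Nat.card ↥K := by
    rw [Finset.filter_not, Finset.card_sdiff_of_subset (Finset.filter_subset _ _), hcardK,
      Finset.card_univ]
  rw [hcardK, hcard', hcardM] at h1
  have hn : 1 ≤ K.relIndex M := by
    rw [Nat.one_le_iff_ne_zero]
    exact Subgroup.index_ne_zero_of_finite
  have hk : 0 < Nat.card ↥K := Nat.card_pos
  have h3 : Nat.card ↥K * K.relIndex M - Nat.card ↥K = Nat.card ↥K * (K.relIndex M - 1) := by
    rw [Nat.mul_sub_one]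
  rw [h3] at h1
  have h4 : (Nat.card ↥K • x K + (Nat.card ↥K * (K.relIndex M - 1)) • c : ℤ) =
      (Nat.card ↥K : ℤ) * (x K + ((K.relIndex M : ℤ) - 1) * c) := by
    simp only [nsmul_eq_mul]
    push_cast [Nat.cast_sub hn]
    ring
  rw [h4] at h1
  push_cast at h1
  have hk' : (Nat.card ↥K : ℤ) ≠ 0 := by exact_mod_cast hk.ne'
  exact Int.dvd_of_mul_dvd_mul_left hk' h1

theorem eq_of_odd_prime [Finite G] {x : Subgroup G → ℤ} (hx : x ∈ burnsideRing G)
    (hu : ∀ H, x H = 1 ∨ x H = -1) {K M : Subgroup G} (hKM : K ≤ M)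
    (hn : (K.subgroupOf M).Normal) (hp : (K.relIndex M).Prime) (hodd : Odd (K.relIndex M)) :
    x M = x K := by
  have hM : M ≤ Subgroup.normalizer (K : Set G) :=
    (Subgroup.normal_subgroupOf_iff_le_normalizer hKM).mp hn
  have h := congr_gen hx hKM hM (x M) (by
    intro m hm hmK
    congr 1
    have hle : K ⊔ Subgroup.zpowers m ≤ M := sup_le hKM (by rwa [Subgroup.zpowers_le])
    have hdvd : (K ⊔ Subgroup.zpowers m).relIndex M ∣ K.relIndex M :=
      Subgroup.relIndex_dvd_of_le_left M le_sup_left
    rcases (Nat.dvd_prime hp).mp hdvd with h1 | h1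
    · exact le_antisymm hle (Subgroup.relIndex_eq_one.mp h1)
    · exfalso
      have h2 := Subgroup.relIndex_mul_relIndex K (K ⊔ Subgroup.zpowers m) M le_sup_left hle
      rw [h1] at h2
      have h3 : K.relIndex (K ⊔ Subgroup.zpowers m) = 1 := by
        have := hp.pos
        exact Nat.eq_of_mul_eq_mul_right this (by rw [h2, one_mul])
      have h4 := Subgroup.relIndex_eq_one.mp h3
      exact hmK (h4 (Subgroup.mem_sup_right (Subgroup.mem_zpowers m))))
  obtain ⟨k, hk⟩ := hodd
  have hge : 3 ≤ K.relIndex M := by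
    have := hp.two_le
    omega
  rcases hu M with h1 | h1 <;> rcases hu K with h2 | h2 <;> rw [h1, h2] at h ⊢
  · exfalso
    obtain ⟨c, hc⟩ := h
    have h5 : ((K.relIndex M : ℕ) : ℤ) ∣ 2 := ⟨1 - c, by linear_combination -hc⟩
    have h6 := Int.le_of_dvd (by norm_num) h5
    omega
  · exfalso
    obtain ⟨c, hc⟩ := h
    have h5 : ((K.relIndex M : ℕ) : ℤ) ∣ 2 := ⟨1 + c, by linear_combination hc⟩
    have h6 := Int.le_of_dvd (by norm_num) h5
    omega

end steps

section main

variable {G : Type} [Group G]

theorem le_normalizer_of_two {H K : Subgroup G} (hKH : K ≤ H) (h2 : K.relIndex H = 2) :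
    H ≤ Subgroup.normalizer (K : Set G) := by
  have : (K.subgroupOf H).Normal := Subgroup.normal_of_index_eq_two h2
  exact (Subgroup.normal_subgroupOf_iff_le_normalizer hKH).mp this

theorem exists_four [Finite G] {H K : Subgroup G} (hKH : K ≤ H) (h2 : K.relIndex H = 2)
    (h4 : 4 ∣ K.relIndex (Subgroup.normalizer (K : Set G))) :
    ∃ M : Subgroup G, H ≤ M ∧ M ≤ Subgroup.normalizer (K : Set G) ∧ K.relIndex M = 4 := by
  set N : Subgroup G := Subgroup.normalizer (K : Set G) with hN
  have hHN : H ≤ N := le_normalizer_of_two hKH h2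
  have hKN : K ≤ N := hKH.trans hHN
  set KN : Subgroup ↥N := K.subgroupOf N with hKNdef
  have hKn : KN.Normal := by rw [hKNdef, hN]; infer_instance
  have hcomap : Subgroup.comap (QuotientGroup.mk' KN) ⊥ = KN := by
    rw [MonoidHom.comap_bot, QuotientGroup.ker_mk']
  have hrel : ∀ L : Subgroup ↥N, KN.relIndex L = Nat.card ↥(L.map (QuotientGroup.mk' KN)) := by
    intro L
    conv_lhs => rw [← hcomap]
    rw [Subgroup.relIndex_comap, Subgroup.relIndex_bot_left]
  have hrel' : ∀ L : Subgroup ↥N, K.relIndex (L.map N.subtype) = KN.relIndex L := by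
    intro L
    rw [← Subgroup.relIndex_comap]
    rfl
  have hHcard : Nat.card ↥((H.subgroupOf N).map (QuotientGroup.mk' KN)) = 2 ^ 1 := by
    rw [← hrel, ← hrel', Subgroup.map_subgroupOf_eq_of_le hHN, h2, pow_one]
  have hQ : 2 ^ (1 + 1) ∣ Nat.card (↥N ⧸ KN) := by
    exact h4
  have : Fact (Nat.Prime 2) := ⟨Nat.prime_two⟩
  obtain ⟨M', hM', hle⟩ := Sylow.exists_subgroup_card_pow_succ hQ hHcard
  refine ⟨(M'.comap (QuotientGroup.mk' KN)).map N.subtype, ?_, Subgroup.map_subtype_le _, ?_⟩
  · rw [← Subgroup.map_subgroupOf_eq_of_le hHN]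
    exact Subgroup.map_mono (Subgroup.map_le_iff_le_comap.mp hle)
  · rw [hrel', hrel, Subgroup.map_comap_eq_self_of_surjective (QuotientGroup.mk'_surjective KN),
      hM']
    norm_num

theorem four_step [Finite G] {x : Subgroup G → ℤ} (hx : x ∈ burnsideRing G)
    (hu : ∀ H, x H = 1 ∨ x H = -1) {K H M : Subgroup G} (hKH : K ≤ H) (hHM : H ≤ M)
    (hM : M ≤ Subgroup.normalizer (K : Set G)) (h4 : K.relIndex M = 4) (h2 : K.relIndex H = 2)
    (hgood : ∀ J : Subgroup G, K ≤ J → J ≤ M → K.relIndex J = 2 → J.relIndex M = 2 → x M = x J) :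
    x H = x K := by
  have hHM2 : H.relIndex M = 2 := by
    have := Subgroup.relIndex_mul_relIndex K H M hKH hHM
    rw [h2, h4] at this
    omega
  have hMH : x M = x H := hgood H hKH hHM h2 hHM2
  have h := congr_gen hx (hKH.trans hHM) hM (x M) (by
    intro m hm hmK
    have hle : K ⊔ Subgroup.zpowers m ≤ M := sup_le (hKH.trans hHM) (by rwa [Subgroup.zpowers_le])
    have hmul := Subgroup.relIndex_mul_relIndex K (K ⊔ Subgroup.zpowers m) M le_sup_left hle
    rw [h4] at hmul
    have hne1 : K.relIndex (K ⊔ Subgroup.zpowers m) ≠ 1 := by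
      intro h1
      exact hmK ((Subgroup.relIndex_eq_one.mp h1) (Subgroup.mem_sup_right
        (Subgroup.mem_zpowers m)))
    have hdvd : K.relIndex (K ⊔ Subgroup.zpowers m) ∣ 4 := ⟨_, hmul.symm⟩
    have hle4 := Nat.le_of_dvd (by norm_num) hdvd
    interval_cases hv : K.relIndex (K ⊔ Subgroup.zpowers m)
    · simp at hdvd
    · exact absurd rfl hne1
    · exact (hgood _ le_sup_left hle hv (by omega)).symm
    · omega
    · have : (K ⊔ Subgroup.zpowers m).relIndex M = 1 := by omega
      rw [le_antisymm hle (Subgroup.relIndex_eq_one.mp this)])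
  rw [h4, hMH] at h
  rcases hu H with h1 | h1 <;> rcases hu K with h3 | h3 <;> rw [h1, h3] at h ⊢
  · norm_num at h
  · norm_num at h

/-- The two-adic valuation of the order of a subgroup. -/
noncomputable def v2 (K : Subgroup G) : ℕ := (Nat.card ↥K).factorization 2

theorem v2_le [Finite G] (K : Subgroup G) : v2 K < Nat.card G :=
  (Nat.factorization_lt 2 (Nat.card_pos (α := ↥K)).ne').trans_le (Subgroup.card_le_card_group K)

theorem card_mul_relIndex' {K M : Subgroup G} (h : K ≤ M) :
    Nat.card ↥K * K.relIndex M = Nat.card ↥M := by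
  have := Subgroup.relIndex_mul_relIndex ⊥ K M bot_le h
  rwa [Subgroup.relIndex_bot_left, Subgroup.relIndex_bot_left] at this

/-- All index two pairs are good once the non-redundant ones are. -/
theorem all_pairs [Finite G] {x : Subgroup G → ℤ} (hx : x ∈ burnsideRing G)
    (hu : ∀ H, x H = 1 ∨ x H = -1)
    (hgood : ∀ p ∈ indexTwoPairs G, p ∉ redundantPairs G → x p.1 = x p.2) :
    ∀ (n : ℕ) (H K : Subgroup G), (Nat.card G - v2 K) * (Nat.card G + 1) + Nat.card ↥K = n →
      K ≤ H → K.relIndex H = 2 → x H = x K := by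
  intro n
  induction n using Nat.strong_induction_on with
  | _ n ih =>
    intro H K hn hKH h2
    by_cases hA : ∃ N : Subgroup G, N ≤ H ∧ (N.subgroupOf H).Normal ∧ (N.relIndex H).Prime ∧
      Odd (N.relIndex H)
    · obtain ⟨N, hNH, hNn, hp, hodd⟩ := hA
      have e1 := Subgroup.relIndex_mul_relIndex (K ⊓ N) N H inf_le_right hNH
      have e2 := Subgroup.relIndex_mul_relIndex (K ⊓ N) K H inf_le_left hKH
      have ha : (K ⊓ N).relIndex N = K.relIndex N := Subgroup.inf_relIndex_right K N
      have ha2 : K.relIndex N ≤ 2 := by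
        rw [← h2]
        exact Subgroup.relIndex_le_of_le_right hNH (by rw [h2]; norm_num)
      rw [ha] at e1
      rw [h2] at e2
      obtain ⟨k, hk⟩ := hodd
      have hq3 : 3 ≤ N.relIndex H := by
        have := hp.two_le
        omega
      have ha' : K.relIndex N = 2 := by
        interval_cases hv : K.relIndex N
        · rw [zero_mul] at e1
          rw [← e1] at e2
          have : (K ⊓ N).relIndex K ≠ 0 := Subgroup.index_ne_zero_of_finite
          omega
        · omega
        · rfl
      rw [ha'] at e1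
      have hb : (K ⊓ N).relIndex K = N.relIndex H := by omega
      have hKN : K ≤ Subgroup.normalizer ((K ⊓ N : Subgroup G) : Set G) := by
        refine le_trans ?_ Subgroup.inf_normalizer_le_normalizer_inf
        exact le_inf Subgroup.le_normalizer
          (hKH.trans ((Subgroup.normal_subgroupOf_iff_le_normalizer hNH).mp hNn))
      have hKn : ((K ⊓ N).subgroupOf K).Normal :=
        (Subgroup.normal_subgroupOf_iff_le_normalizer inf_le_left).mpr hKN
      have s1 : x H = x N := eq_of_odd_prime hx hu hNH hNn hp ⟨k, hk⟩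
      have s2 : x K = x (K ⊓ N) := eq_of_odd_prime hx hu inf_le_left hKn (by rw [hb]; exact hp)
        (by rw [hb]; exact ⟨k, hk⟩)
      have hcard : Nat.card ↥(K ⊓ N) * N.relIndex H = Nat.card ↥K := by
        rw [← hb]; exact card_mul_relIndex' inf_le_left
      have hv : v2 (K ⊓ N) = v2 K := by
        unfold v2
        rw [← hcard, Nat.factorization_mul Nat.card_pos.ne' hp.ne_zero]
        have : (N.relIndex H).factorization 2 = 0 := by
          apply Nat.factorization_eq_zero_of_not_dvd
          omega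
        simp [this]
      have hlt : Nat.card ↥(K ⊓ N) < Nat.card ↥K := by
        rw [← hcard]
        have : 0 < Nat.card ↥(K ⊓ N) := Nat.card_pos
        nlinarith
      rw [s1, s2]
      exact ih _ (by rw [← hn, hv]; omega) N (K ⊓ N) rfl inf_le_right (by rw [ha, ha'])
    · by_cases hB : 4 ∣ K.relIndex (Subgroup.normalizer (K : Set G))
      · obtain ⟨M, hHM, hM, h4⟩ := exists_four hKH h2 hB
        refine four_step hx hu hKH hHM hM h4 h2 fun J hKJ hJM hJ hJ2 => ?_
        have hcard : Nat.card ↥K * 2 = Nat.card ↥J := by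
          rw [← hJ]; exact card_mul_relIndex' hKJ
        have hv : v2 J = v2 K + 1 := by
          unfold v2
          rw [← hcard, Nat.factorization_mul Nat.card_pos.ne' two_ne_zero]
          simp [Nat.prime_two.factorization]
        have hJle : Nat.card ↥J ≤ Nat.card G := Subgroup.card_le_card_group J
        have hKlt := v2_le K
        have hJlt := v2_le J
        refine ih _ ?_ M J rfl hJM hJ2
        rw [← hn, hv]
        obtain ⟨a, ha⟩ : ∃ a, Nat.card G - v2 K = a + 1 := ⟨Nat.card G - v2 K - 1, by omega⟩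
        have ha' : Nat.card G - (v2 K + 1) = a := by omega
        rw [ha, ha']
        nlinarith [Nat.card_pos (α := ↥K)]
      · apply hgood (H, K) ⟨hKH, h2⟩
        rintro ⟨-, h | h⟩
        · exact hB h
        · exact hA h

theorem determine [Finite G] {x : Subgroup G → ℤ} (hx : x ∈ burnsideRing G)
    (hu : ∀ H, x H = 1 ∨ x H = -1) (hperf : ∀ L : Subgroup G, ⁅L, L⁆ = L → x L = 1)
    (hgood : ∀ p ∈ indexTwoPairs G, p ∉ redundantPairs G → x p.1 = x p.2) :
    ∀ (n : ℕ) (H : Subgroup G), Nat.card ↥H = n → x H = 1 := by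
  intro n
  induction n using Nat.strong_induction_on with
  | _ n ih =>
    intro H hn
    by_cases hH : ⁅H, H⁆ = H
    · exact hperf H hH
    · obtain ⟨K, hKH, hKn, hp⟩ := exists_prime_step H hH
      have hcard := card_mul_relIndex' hKH
      have hlt : Nat.card ↥K < Nat.card ↥H := by
        rw [← hcard]
        have := hp.two_le
        have : 0 < Nat.card ↥K := Nat.card_pos
        nlinarith
      have hK := ih _ (by rw [← hn]; exact hlt) K rfl
      rw [← hK]
      rcases hp.eq_two_or_odd' with h2 | hodd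
      · exact all_pairs hx hu hgood _ H K rfl hKH h2
      · exact eq_of_odd_prime hx hu hKH hKn hp hodd

end main

section counting

variable {G : Type} [Group G]

theorem card_fun_units (A : Type) [Finite A] : Nat.card (A → ℤˣ) = 2 ^ Nat.card A := by
  rw [Nat.card_fun]
  congr 1
  rw [Nat.card_eq_fintype_card]
  rfl

theorem unit_val (u : (burnsideRing G)ˣ) (H : Subgroup G) :
    (u : burnsideRing G).1 H = 1 ∨ (u : burnsideRing G).1 H = -1 := by
  have h : (u : burnsideRing G) * ((u⁻¹ : (burnsideRing G)ˣ) : burnsideRing G) = 1 := by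
    rw [← Units.val_mul, mul_inv_cancel, Units.val_one]
  have h' := congrFun (congrArg Subtype.val h) H
  have h'' : (u : burnsideRing G).1 H * ((u⁻¹ : (burnsideRing G)ˣ) : burnsideRing G).1 H = 1 := h'
  exact Int.isUnit_iff.mp (IsUnit.of_mul_eq_one _ h'')

/-- The value of a unit as a sign. -/
noncomputable def uval (u : (burnsideRing G)ˣ) (H : Subgroup G) : ℤˣ :=
  if (u : burnsideRing G).1 H = 1 then 1 else -1

theorem uval_coe (u : (burnsideRing G)ˣ) (H : Subgroup G) :
    ((uval u H : ℤˣ) : ℤ) = (u : burnsideRing G).1 H := by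
  unfold uval
  rcases unit_val u H with h | h <;> rw [h] <;> simp

theorem uval_mul (u v : (burnsideRing G)ˣ) (H : Subgroup G) :
    uval (u * v) H = uval u H * uval v H := by
  apply Units.ext
  rw [Units.val_mul, uval_coe, uval_coe, uval_coe, Units.val_mul]
  rfl

theorem uval_injective (u v : (burnsideRing G)ˣ) (h : ∀ H, uval u H = uval v H) : u = v := by
  apply Units.ext
  apply Subtype.ext
  funext H
  rw [← uval_coe, ← uval_coe, h H]

theorem uval_sq (u : (burnsideRing G)ˣ) : u * u = 1 := by
  apply uval_injective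
  intro H
  rw [uval_mul]
  have h1 : uval (1 : (burnsideRing G)ˣ) H = 1 := by
    apply Units.ext
    rw [uval_coe]
    rfl
  rw [h1, Int.units_mul_self]

theorem uval_conj (u : (burnsideRing G)ˣ) (g : ConjAct G) (H : Subgroup G) :
    uval u (g • H) = uval u H := by
  apply Units.ext
  rw [uval_coe, uval_coe]
  exact conj_inv (u : burnsideRing G).2 g H

instance [Finite G] : Finite (burnsideRing G)ˣ :=
  Finite.of_injective (fun u => uval u) fun u v h => uval_injective u v (congrFun h)

/-- The classes. -/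
abbrev Cl (G : Type) [Group G] {α : Type} [MulAction (ConjAct G) α] (S : Set α) : Type :=
  ↥(Quotient.mk (MulAction.orbitRel (ConjAct G) α) '' S)

/-- Determining data of a unit. -/
noncomputable def data (u : (burnsideRing G)ˣ) :
    (Cl G {L : Subgroup G | ⁅L, L⁆ = L} → ℤˣ) ×
      (Cl G (indexTwoPairs G \ redundantPairs G) → ℤˣ) :=
  (fun o => uval u o.2.choose, fun o => uval u o.2.choose.1 * uval u o.2.choose.2)

theorem data_injective [Finite G] : Function.Injective (data (G := G)) := by
  intro u v huv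
  have hw : ∀ H, ((u * v : (burnsideRing G)ˣ) : burnsideRing G).1 H = 1 := by
    intro H
    refine determine ((u * v : (burnsideRing G)ˣ) : burnsideRing G).2 (unit_val (u * v)) ?_ ?_ _ H rfl
    · intro L hL
      rw [← uval_coe, uval_mul]
      have hmem : (Quotient.mk (MulAction.orbitRel (ConjAct G) (Subgroup G)) L) ∈
          Quotient.mk (MulAction.orbitRel (ConjAct G) (Subgroup G)) ''
            {L : Subgroup G | ⁅L, L⁆ = L} := ⟨L, hL, rfl⟩
      have h1 : uval u hmem.choose = uval v hmem.choose :=
        congrFun (congrArg Prod.fst huv) ⟨_, hmem⟩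
      have h2 : (MulAction.orbitRel (ConjAct G) (Subgroup G)).r hmem.choose L :=
        Quotient.exact hmem.choose_spec.2
      obtain ⟨g, hg⟩ := MulAction.orbitRel_apply.mp h2
      have hg' : g • L = hmem.choose := hg
      rw [← uval_conj u g L, ← uval_conj v g L, hg', h1, Int.units_mul_self]
      rfl
    · intro p hp hpr
      have hmem : (Quotient.mk (MulAction.orbitRel (ConjAct G) (Subgroup G × Subgroup G)) p) ∈
          Quotient.mk (MulAction.orbitRel (ConjAct G) (Subgroup G × Subgroup G)) ''
            (indexTwoPairs G \ redundantPairs G) := ⟨p, ⟨hp, hpr⟩, rfl⟩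
      have h1 : uval u hmem.choose.1 * uval u hmem.choose.2 =
          uval v hmem.choose.1 * uval v hmem.choose.2 :=
        congrFun (congrArg Prod.snd huv) ⟨_, hmem⟩
      have h2 : (MulAction.orbitRel (ConjAct G) (Subgroup G × Subgroup G)).r hmem.choose p :=
        Quotient.exact hmem.choose_spec.2
      obtain ⟨g, hg⟩ := MulAction.orbitRel_apply.mp h2
      have hg' : g • p = hmem.choose := hg
      have e1 : g • p.1 = hmem.choose.1 := congrArg Prod.fst hg'
      have e2 : g • p.2 = hmem.choose.2 := congrArg Prod.snd hg'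
      rw [← e1, ← e2, uval_conj, uval_conj, uval_conj, uval_conj] at h1
      rw [← uval_coe, ← uval_coe, uval_mul, uval_mul]
      congr 1
      rcases Int.units_eq_one_or (uval u p.1) with a | a <;>
      rcases Int.units_eq_one_or (uval u p.2) with b | b <;>
      rcases Int.units_eq_one_or (uval v p.1) with c | c <;>
      rcases Int.units_eq_one_or (uval v p.2) with d | d <;>
      rw [a, b, c, d] at h1 <;> rw [a, b, c, d] <;> revert h1 <;> decide
  have huv1 : u * v = 1 := by
    apply Units.ext
    apply Subtype.ext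
    funext H
    rw [hw H]
    rfl
  calc u = u * (v * v) := by rw [uval_sq, mul_one]
    _ = (u * v) * v := (mul_assoc _ _ _).symm
    _ = v := by rw [huv1, one_mul]

theorem card_le [Finite G] : Nat.card (burnsideRing G)ˣ ≤
    2 ^ (numClasses G {L : Subgroup G | ⁅L, L⁆ = L} +
      numClasses G (indexTwoPairs G \ redundantPairs G)) := by
  have h := Nat.card_le_card_of_injective _ (data_injective (G := G))
  rw [Nat.card_prod, card_fun_units, card_fun_units, ← pow_add] at h
  exact h

theorem card_pow [Finite G] : ∃ r : ℕ, Nat.card (burnsideRing G)ˣ = 2 ^ r := by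
  have : Fact (Nat.Prime 2) := ⟨Nat.prime_two⟩
  apply IsPGroup.iff_card.mp
  intro u
  exact ⟨1, by rw [pow_one, pow_two, uval_sq]⟩

theorem normalizer_conj (g : ConjAct G) (K : Subgroup G) :
    Subgroup.normalizer ((g • K : Subgroup G) : Set G) =
      g • Subgroup.normalizer (K : Set G) := by
  ext y
  rw [Subgroup.mem_pointwise_smul_iff_inv_smul_mem, Subgroup.mem_normalizer_iff,
    Subgroup.mem_normalizer_iff]
  constructor
  · intro h z
    have := h (g • z)
    rw [Subgroup.mem_pointwise_smul_iff_inv_smul_mem,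
      Subgroup.mem_pointwise_smul_iff_inv_smul_mem, smul_mul', smul_mul', inv_smul_smul,
      smul_inv'] at this
    exact this
  · intro h z
    have := h (g⁻¹ • z)
    rw [Subgroup.mem_pointwise_smul_iff_inv_smul_mem,
      Subgroup.mem_pointwise_smul_iff_inv_smul_mem, smul_mul', smul_mul', smul_inv']
    exact this

theorem red_smul [Finite G] (g : ConjAct G) {p : Subgroup G × Subgroup G}
    (h : p ∈ redundantPairs G) : g • p ∈ redundantPairs G := by
  obtain ⟨⟨hle, h2⟩, h⟩ := h
  have e1 : (g • p).1 = g • p.1 := rfl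
  have e2 : (g • p).2 = g • p.2 := rfl
  refine ⟨⟨?_, ?_⟩, ?_⟩
  · rw [e1, e2]
    exact Subgroup.pointwise_smul_le_pointwise_smul_iff.mpr hle
  · rw [e1, e2, Subgroup.relIndex_pointwise_smul]
    exact h2
  · rcases h with h | ⟨N, hN, hn, hp, hodd⟩
    · left
      rw [e2, normalizer_conj, Subgroup.relIndex_pointwise_smul]
      exact h
    · right
      have hle' : g • N ≤ g • p.1 := Subgroup.pointwise_smul_le_pointwise_smul_iff.mpr hN
      refine ⟨g • N, hle', ?_, ?_, ?_⟩
      · rw [e1, Subgroup.normal_subgroupOf_iff_le_normalizer hle', normalizer_conj,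
          Subgroup.pointwise_smul_le_pointwise_smul_iff]
        exact (Subgroup.normal_subgroupOf_iff_le_normalizer hN).mp hn
      · rw [e1, Subgroup.relIndex_pointwise_smul]
        exact hp
      · rw [e1, Subgroup.relIndex_pointwise_smul]
        exact hodd

theorem split [Finite G] : numClasses G (indexTwoPairs G \ redundantPairs G) +
    numClasses G (redundantPairs G) = numClasses G (indexTwoPairs G) := by
  unfold numClasses
  have hu : indexTwoPairs G = (indexTwoPairs G \ redundantPairs G) ∪ redundantPairs G := by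
    rw [Set.diff_union_of_subset]
    intro p hp
    exact hp.1
  conv_rhs => rw [hu]
  rw [Set.image_union, Set.ncard_union_eq]
  rw [Set.disjoint_left]
  rintro _ ⟨p, ⟨-, hp⟩, rfl⟩ ⟨q, hq, hpq⟩
  have h2 : (MulAction.orbitRel (ConjAct G) (Subgroup G × Subgroup G)).r q p :=
    Quotient.exact hpq
  obtain ⟨g, hg⟩ := MulAction.orbitRel_apply.mp h2
  have hg' : g • p = q := hg
  apply hp
  have : p = g⁻¹ • q := by rw [← hg', inv_smul_smul]
  rw [this]
  exact red_smul _ hq

end counting

/-- **Bound for the unit rank.** For every finite group `G` the unit group of its Burnside ring has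
order `2 ^ r`, where `r` plus the number of classes of redundant index two pairs is at most the
number of classes of perfect subgroups plus the number of classes of all index two pairs. -/
theorem result (G : Type) [Group G] [Finite G] :
    ∃ r : ℕ, Nat.card (burnsideRing G)ˣ = 2 ^ r ∧
      r + numClasses G (redundantPairs G) ≤
        numClasses G {L : Subgroup G | ⁅L, L⁆ = L} + numClasses G (indexTwoPairs G) := by
  obtain ⟨r, hr⟩ := card_pow (G := G)
  refine ⟨r, hr, ?_⟩
  have h := card_le (G := G)
  rw [hr] at h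
  have h' := (Nat.pow_le_pow_iff_right (by norm_num : 1 < 2)).mp h
  have hs := split (G := G)
  omega

end Pool.Agent.Results.MP_e629f7_al.UnitRankBound
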